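import Pool.Agent.Helper74_RL.Stmts

/-!
# TR1: transitions between the main chart and the charts near the exceptional spheres (helper31)
-/

noncomputable section

open scoped ContDiff Topology ENNReal RealInnerProductSpace BoundedContinuousFunction
set_option maxSynthPendingDepth 3
open Set Metric

namespace Pool.Agent.RLim.H31

open Pool.Agent.RLim Pool.Agent.RF

/-- the inverse of `Phi0 i` -/
def inv0 (i : Bool) (Y : E4) : E4 := if i then
    WithLp.toLp 2 ![Y 2, Y 3, (Y 0 * Y 2 + Y 1 * Y 3) / (Y 2 ^ 2 + Y 3 ^ 2),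
      (Y 1 * Y 2 - Y 0 * Y 3) / (Y 2 ^ 2 + Y 3 ^ 2)]
  else WithLp.toLp 2 ![Y 0, Y 1, (Y 2 * Y 0 + Y 3 * Y 1) / (Y 0 ^ 2 + Y 1 ^ 2),
      (Y 3 * Y 0 - Y 2 * Y 1) / (Y 0 ^ 2 + Y 1 ^ 2)]

/-- the square of the norm of `a` -/
def nn (i : Bool) (Y : E4) : ℝ := if i then Y 2 ^ 2 + Y 3 ^ 2 else Y 0 ^ 2 + Y 1 ^ 2

theorem ne_iff {x y : ℝ} : x ^ 2 + y ^ 2 ≠ 0 ↔ x ≠ 0 ∨ y ≠ 0 := by
  constructor
  · intro h
    by_contra hc
    push Not at hc
    apply h
    rw [hc.1, hc.2]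
    norm_num
  · rintro (h | h)
    · have := sq_nonneg y
      have : 0 < x ^ 2 := by positivity
      positivity
    · have := sq_nonneg x
      have : 0 < y ^ 2 := by positivity
      positivity

theorem nn_Phi0 (i : Bool) (q : E4) : nn i (Phi0 i q) = q 0 ^ 2 + q 1 ^ 2 := by
  cases i <;> simp [nn, Phi0]

theorem inv0_Phi0 (i : Bool) (q : E4) (h : q 0 ^ 2 + q 1 ^ 2 ≠ 0) : inv0 i (Phi0 i q) = q := by
  cases i
  · ext j
    fin_cases j
    · simp [inv0, Phi0]
    · simp [inv0, Phi0]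
    · simp [inv0, Phi0]
      field_simp
      ring
    · simp [inv0, Phi0]
      field_simp
      ring
  · ext j
    fin_cases j
    · simp [inv0, Phi0]
    · simp [inv0, Phi0]
    · simp [inv0, Phi0]
      field_simp
      ring
    · simp [inv0, Phi0]
      field_simp
      ring

theorem Phi0_inv0 (i : Bool) (Y : E4) (h : nn i Y ≠ 0) : Phi0 i (inv0 i Y) = Y := by
  cases i
  · have h' : Y 0 ^ 2 + Y 1 ^ 2 ≠ 0 := by simpa [nn] using h
    ext j
    fin_cases j
    · simp [inv0, Phi0]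
    · simp [inv0, Phi0]
    · simp [inv0, Phi0]
      field_simp
      ring
    · simp [inv0, Phi0]
      field_simp
      ring
  · have h' : Y 2 ^ 2 + Y 3 ^ 2 ≠ 0 := by simpa [nn] using h
    ext j
    fin_cases j
    · simp [inv0, Phi0]
      field_simp
      ring
    · simp [inv0, Phi0]
      field_simp
      ring
    · simp [inv0, Phi0]
    · simp [inv0, Phi0]

theorem cd_coord (j : Fin 4) {s : Set E4} : ContDiffOn ℝ ∞ (fun Y : E4 => Y j) s :=
  (contDiff_euclidean.1 contDiff_id j).contDiffOn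

theorem inv0_smooth (i : Bool) : ContDiffOn ℝ ∞ (inv0 i) {Y | nn i Y ≠ 0} := by
  rw [contDiffOn_euclidean]
  intro j
  have c0 := cd_coord 0 (s := {Y | nn i Y ≠ 0})
  have c1 := cd_coord 1 (s := {Y | nn i Y ≠ 0})
  have c2 := cd_coord 2 (s := {Y | nn i Y ≠ 0})
  have c3 := cd_coord 3 (s := {Y | nn i Y ≠ 0})
  cases i
  · have hne : ∀ Y ∈ {Y : E4 | nn false Y ≠ 0}, Y 0 ^ 2 + Y 1 ^ 2 ≠ 0 := by
      intro Y hY
      simpa [nn] using hY
    fin_cases j
    · simpa [inv0] using c0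
    · simpa [inv0] using c1
    · exact (((c2.mul c0).add (c3.mul c1)).div ((c0.pow 2).add (c1.pow 2)) hne).congr
        fun Y _ => by simp [inv0]
    · exact (((c3.mul c0).sub (c2.mul c1)).div ((c0.pow 2).add (c1.pow 2)) hne).congr
        fun Y _ => by simp [inv0]
  · have hne : ∀ Y ∈ {Y : E4 | nn true Y ≠ 0}, Y 2 ^ 2 + Y 3 ^ 2 ≠ 0 := by
      intro Y hY
      simpa [nn] using hY
    fin_cases j
    · simpa [inv0] using c2
    · simpa [inv0] using c3
    · exact (((c0.mul c2).add (c1.mul c3)).div ((c2.pow 2).add (c3.pow 2)) hne).congr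
        fun Y _ => by simp [inv0]
    · exact (((c1.mul c2).sub (c0.mul c3)).div ((c2.pow 2).add (c3.pow 2)) hne).congr
        fun Y _ => by simp [inv0]

theorem nn_cont (i : Bool) : Continuous (nn i) := by
  have c : ∀ j : Fin 4, Continuous (fun Y : E4 => Y j) := fun j =>
    (contDiff_euclidean.1 (contDiff_id (𝕜 := ℝ) (n := 0)) j).continuous
  cases i
  · have : nn false = fun Y : E4 => Y 0 ^ 2 + Y 1 ^ 2 := by funext Y; simp [nn]
    rw [this]
    exact ((c 0).pow 2).add ((c 1).pow 2)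
  · have : nn true = fun Y : E4 => Y 2 ^ 2 + Y 3 ^ 2 := by funext Y; simp [nn]
    rw [this]
    exact ((c 2).pow 2).add ((c 3).pow 2)

/-- the inverse of the chart map -/
def icm (D : MetricData) (k : ℕ) (i : Bool) (X : E4) : E4 := inv0 i ((D.w k)⁻¹ • (X - D.P k))

def OO (D : MetricData) (k : ℕ) (i : Bool) : Set E4 := {X | nn i ((D.w k)⁻¹ • (X - D.P k)) ≠ 0}

theorem aff_cd (D : MetricData) (k : ℕ) : ContDiff ℝ ∞ (fun X : E4 => (D.w k)⁻¹ • (X - D.P k)) :=
  (contDiff_id.sub contDiff_const).const_smul _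

theorem OO_open (D : MetricData) (k : ℕ) (i : Bool) : IsOpen (OO D k i) :=
  isOpen_ne.preimage ((nn_cont i).comp (aff_cd D k).continuous)

theorem icm_smooth (D : MetricData) (k : ℕ) (i : Bool) : ContDiffOn ℝ ∞ (icm D k i) (OO D k i) :=
  (inv0_smooth i).comp (aff_cd D k).contDiffOn fun _ hX => hX

theorem cm_icm (D : MetricData) (k : ℕ) (i : Bool) {X : E4} (hX : X ∈ OO D k i) :
    cm D k i (icm D k i X) = X := by
  have hw := (D.w_pos k).ne'
  unfold cm icm
  rw [Phi0_inv0 i _ hX, smul_smul, mul_inv_cancel₀ hw, one_smul]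
  abel

theorem aff_cm (D : MetricData) (k : ℕ) (i : Bool) (q : E4) :
    (D.w k)⁻¹ • (cm D k i q - D.P k) = Phi0 i q := by
  have hw := (D.w_pos k).ne'
  unfold cm
  rw [add_sub_cancel_left, smul_smul, inv_mul_cancel₀ hw, one_smul]

theorem icm_cm (D : MetricData) (k : ℕ) (i : Bool) {q : E4} (h : q 0 ^ 2 + q 1 ^ 2 ≠ 0) :
    icm D k i (cm D k i q) = q := by
  unfold icm
  rw [aff_cm, inv0_Phi0 i q h]

theorem cm_mem_OO (D : MetricData) (k : ℕ) (i : Bool) {q : E4} (h : q 0 ^ 2 + q 1 ^ 2 ≠ 0) :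
    cm D k i q ∈ OO D k i := by
  show nn i ((D.w k)⁻¹ • (cm D k i q - D.P k)) ≠ 0
  rw [aff_cm, nn_Phi0]
  exact h

/-- if `cm q` is not the centre then `a ≠ 0` -/
theorem a_ne (D : MetricData) (k : ℕ) (i : Bool) {q : E4} (h : cm D k i q ≠ D.P k) :
    q 0 ^ 2 + q 1 ^ 2 ≠ 0 := by
  rw [ne_iff]
  by_contra hc
  push Not at hc
  apply h
  unfold cm
  rw [Phi0_eq_zero.2 hc, smul_zero, add_zero]

theorem D_icm (hPhi : PhiStmt) (D : MetricData) (k : ℕ) (i : Bool) {X : E4} (hX : X ∈ OO D k i)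
    (V : E4) : fderiv ℝ (cm D k i) (icm D k i X) (fderiv ℝ (icm D k i) X V) = V := by
  have h1 : DifferentiableAt ℝ (icm D k i) X :=
    ((icm_smooth D k i).contDiffAt ((OO_open D k i).mem_nhds hX)).differentiableAt (by simp)
  have h2 : DifferentiableAt ℝ (cm D k i) (icm D k i X) :=
    ((hPhi.2.2.2 D k i).1.differentiable (by simp)) _
  have h3 : (fun X => cm D k i (icm D k i X)) =ᶠ[𝓝 X] id := by
    filter_upwards [(OO_open D k i).mem_nhds hX] with Y hY
    exact cm_icm D k i hY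
  have h4 : fderiv ℝ (fun X => cm D k i (icm D k i X)) X = ContinuousLinearMap.id ℝ E4 := by
    rw [h3.fderiv_eq, fderiv_id]
  have h5 := fderiv_comp' X h2 h1
  rw [h4] at h5
  have h6 := congrArg (fun L : E4 →L[ℝ] E4 => L V) h5
  simpa using h6.symm

theorem G1_of_ne (D : MetricData) (j : ℕ) (k : Fin j) (i : Bool) {q : E4}
    (h : q 0 ^ 2 + q 1 ^ 2 ≠ 0) : G1 D j k i q = pullb (D.g j) (cm D k i) q := by
  unfold G1
  rw [if_pos (ne_iff.1 h)]

theorem pullb_app (H : E4 → Bil E4) (ψ : E4 → E4) (y V W : E4) :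
    pullb H ψ y V W = H (ψ y) (fderiv ℝ ψ y V) (fderiv ℝ ψ y W) := rfl

theorem tr1 (hPhi : PhiStmt) (hPsi : PsiStmt) : Tr1Stmt := by
  intro D j k i
  obtain ⟨-, -, -, -, hP5, -⟩ := hPsi D j
  constructor
  · -- from the main chart
    have key : ∀ X ∈ U0 D j ∩ psi0 D j ⁻¹' (psi1 D j k i '' U1), ∃ q ∈ U1,
        q 0 ^ 2 + q 1 ^ 2 ≠ 0 ∧ X = cm D k i q ∧ psi1 D j k i q = psi0 D j X := by
      rintro X ⟨hX, q, hq, hqX⟩
      have h1 : cm D k i q = X := congrArg (fun p : Bl D j => p.1.1) hqX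
      refine ⟨q, hq, a_ne D k i ?_, h1.symm, hqX⟩
      rw [h1]
      exact hX k k.2
    refine ⟨icm D k i, (icm_smooth D k i).mono ?_, ?_⟩
    · intro X hX
      obtain ⟨q, -, hq0, rfl, -⟩ := key X hX
      exact cm_mem_OO D k i hq0
    · intro X hX
      obtain ⟨q, hq, hq0, hXq, hψ⟩ := key X hX
      have hXO : X ∈ OO D k i := by rw [hXq]; exact cm_mem_OO D k i hq0
      have h1 : icm D k i X = q := by rw [hXq]; exact icm_cm D k i hq0
      refine ⟨by rw [h1]; exact hq, by rw [h1]; exact hψ, fun V W => ?_⟩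
      have h2 : (icm D k i X) 0 ^ 2 + (icm D k i X) 1 ^ 2 ≠ 0 := by rw [h1]; exact hq0
      rw [G1_of_ne D j k i h2, pullb_app, D_icm hPhi D k i hXO V, D_icm hPhi D k i hXO W,
        cm_icm D k i hXO]
  · -- to the main chart
    refine ⟨cm D k i, (hPhi.2.2.2 D k i).1.contDiffOn, ?_⟩
    rintro q ⟨hq, X, hX, hXq⟩
    have h1 : X = cm D k i q := congrArg (fun p : Bl D j => p.1.1) hXq
    have h0 : q 0 ^ 2 + q 1 ^ 2 ≠ 0 := by
      apply a_ne D k i
      rw [← h1]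
      exact hX k k.2
    refine ⟨by rw [← h1]; exact hX, by rw [← h1]; exact hXq, fun V W => ?_⟩
    rw [G1_of_ne D j k i h0, pullb_app]

end Pool.Agent.RLim.H31
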