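import Pool.Agent.Helper31_RLB.Tr1

/-!
# TR2: transitions between the charts near the exceptional spheres (helper31)
-/

noncomputable section

open scoped ContDiff Topology ENNReal RealInnerProductSpace BoundedContinuousFunction
set_option maxSynthPendingDepth 3
open Set Metric

namespace Pool.Agent.RLim.H31

open Pool.Agent.RLim Pool.Agent.RF

/-- the change of charts `(a,b) ↦ (ab, 1/b)` -/
def sw (q : E4) : E4 := WithLp.toLp 2 ![q 0 * q 2 - q 1 * q 3, q 0 * q 3 + q 1 * q 2,
  q 2 / (q 2 ^ 2 + q 3 ^ 2), -q 3 / (q 2 ^ 2 + q 3 ^ 2)]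

def SB : Set E4 := {q | q 2 ^ 2 + q 3 ^ 2 ≠ 0}

theorem Phi0_sw (i : Bool) {q : E4} (h : q ∈ SB) : Phi0 (!i) (sw q) = Phi0 i q := by
  have h' : q 2 ^ 2 + q 3 ^ 2 ≠ 0 := h
  cases i
  · ext j
    fin_cases j
    · simp [sw, Phi0]
      field_simp
      ring
    · simp [sw, Phi0]
      field_simp
      ring
    · simp [sw, Phi0]
    · simp [sw, Phi0]
  · ext j
    fin_cases j
    · simp [sw, Phi0]
    · simp [sw, Phi0]
    · simp [sw, Phi0]
      field_simp
      ring
    · simp [sw, Phi0]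
      field_simp
      ring

theorem sg_sw (i : Bool) {q : E4} (h : q ∈ SB) : sg (!i) (sw q) = sg i q := by
  have h' : q 2 ^ 2 + q 3 ^ 2 ≠ 0 := h
  have hp : (1 + q 2 ^ 2 + q 3 ^ 2 : ℝ) ≠ 0 := by positivity
  have h2 : (sw q) 2 = q 2 / (q 2 ^ 2 + q 3 ^ 2) := by simp [sw]
  have h3 : (sw q) 3 = -q 3 / (q 2 ^ 2 + q 3 ^ 2) := by simp [sw]
  have hs : (1 + (sw q) 2 ^ 2 + (sw q) 3 ^ 2 : ℝ) = (1 + q 2 ^ 2 + q 3 ^ 2) / (q 2 ^ 2 + q 3 ^ 2) := by
    rw [h2, h3]
    field_simp
    ring
  unfold sg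
  rw [hs, h2, h3, inv_div]
  cases i
  · ext j
    fin_cases j
    · simp
      field_simp
    · simp
      field_simp
    · simp
      field_simp
  · ext j
    fin_cases j
    · simp
      field_simp
    · simp
      field_simp
    · simp
      field_simp

theorem SB_open : IsOpen SB := by
  have c : ∀ j : Fin 4, Continuous (fun Y : E4 => Y j) := fun j =>
    (contDiff_euclidean.1 (contDiff_id (𝕜 := ℝ) (n := 0)) j).continuous
  exact isOpen_ne.preimage (((c 2).pow 2).add ((c 3).pow 2))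

theorem sw_smooth : ContDiffOn ℝ ∞ sw SB := by
  rw [contDiffOn_euclidean]
  intro j
  have c0 := cd_coord 0 (s := SB)
  have c1 := cd_coord 1 (s := SB)
  have c2 := cd_coord 2 (s := SB)
  have c3 := cd_coord 3 (s := SB)
  have hne : ∀ Y ∈ SB, Y 2 ^ 2 + Y 3 ^ 2 ≠ 0 := fun Y hY => hY
  fin_cases j
  · exact ((c0.mul c2).sub (c1.mul c3)).congr fun Y _ => by simp [sw]
  · exact ((c0.mul c3).add (c1.mul c2)).congr fun Y _ => by simp [sw]
  · exact (c2.div ((c2.pow 2).add (c3.pow 2)) hne).congr fun Y _ => by simp [sw]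
  · exact (c3.neg.div ((c2.pow 2).add (c3.pow 2)) hne).congr fun Y _ => by simp [sw]

theorem cm_sw (D : MetricData) (k : ℕ) (i : Bool) {q : E4} (h : q ∈ SB) :
    cm D k (!i) (sw q) = cm D k i q := by
  unfold cm
  rw [Phi0_sw i h]

theorem psi1_sw (D : MetricData) (j : ℕ) (k : Fin j) (i : Bool) {q : E4} (h : q ∈ SB) :
    psi1 D j k (!i) (sw q) = psi1 D j k i q := by
  apply Subtype.ext
  apply Prod.ext
  · exact cm_sw D k i h
  · funext l
    show (if l = k then D.w k • sg (!i) (sw q) else D.w l • hd (cm D k (!i) (sw q) - D.P l)) =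
      (if l = k then D.w k • sg i q else D.w l • hd (cm D k i q - D.P l))
    rw [sg_sw i h, cm_sw D k i h]

theorem sw_U1 {q : E4} (h : q ∈ SB) (hq : q ∈ U1) : sw q ∈ U1 := by
  have h1 : ‖Phi0 (!true) (sw q)‖ ^ 2 < 64 := by
    rw [Phi0_sw true h, norm_Phi0]
    exact hq
  rw [norm_Phi0] at h1
  exact h1

/-- points over two charts around the same centre -/
theorem sb_of_eq (D : MetricData) (j : ℕ) (k : Fin j) (i : Bool) {q q' : E4}
    (h : psi1 D j k (!i) q' = psi1 D j k i q) : q ∈ SB := by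
  have h1 : D.w k • sg (!i) q' = D.w k • sg i q := by
    have := congrArg (fun p : Bl D j => p.1.2 k) h
    simpa [psi1] using this
  have h2 : sg (!i) q' = sg i q := by
    have hw := (D.w_pos k).ne'
    have := congrArg (fun v => (D.w k)⁻¹ • v) h1
    simpa [smul_smul, inv_mul_cancel₀ hw] using this
  have h3 : (sg (!i) q') 2 = (sg i q) 2 := by rw [h2]
  by_contra hc
  have h4 : q 2 ^ 2 + q 3 ^ 2 = 0 := by
    by_contra h5
    exact hc h5
  have hp : (0 : ℝ) < 1 + q' 2 ^ 2 + q' 3 ^ 2 := by positivity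
  cases i
  · have h5 : (sg false q) 2 = 1 := by
      simp [sg]
      rw [show (1 + q 2 ^ 2 + q 3 ^ 2 : ℝ) = 1 by linarith, show (1 - (q 2 ^ 2 + q 3 ^ 2) : ℝ) = 1 by linarith]
      norm_num
    have h6 : (sg (!false) q') 2 < 1 := by
      simp [sg]
      rw [inv_mul_lt_iff₀ hp]
      linarith
    rw [h3, h5] at h6
    exact lt_irrefl _ h6
  · have h5 : (sg true q) 2 = -1 := by
      simp [sg]
      rw [show (1 + q 2 ^ 2 + q 3 ^ 2 : ℝ) = 1 by linarith, show (q 2 ^ 2 + q 3 ^ 2 - 1 : ℝ) = -1 by linarith]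
      norm_num
    have h6 : -1 < (sg (!true) q') 2 := by
      simp [sg]
      rw [inv_mul_eq_div, lt_div_iff₀ hp]
      linarith
    rw [h3, h5] at h6
    exact lt_irrefl _ h6

theorem TransE_id {M : Type} (U : Set E4) (ψ : E4 → M) (G : E4 → Bil E4) :
    TransE U ψ G U ψ G := by
  refine ⟨id, contDiffOn_id, fun q hq => ⟨hq.1, rfl, fun V W => ?_⟩⟩
  simp

theorem sw_sub {q : E4} (h : q ∈ SB)
    (h0 : q 0 ^ 2 + q 1 ^ 2 ≠ 0) : (sw q) 0 ^ 2 + (sw q) 1 ^ 2 ≠ 0 := by
  have h' : q 2 ^ 2 + q 3 ^ 2 ≠ 0 := h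
  have h1 : (sw q) 0 ^ 2 + (sw q) 1 ^ 2 = (q 0 ^ 2 + q 1 ^ 2) * (q 2 ^ 2 + q 3 ^ 2) := by
    simp [sw]
    ring
  rw [h1]
  exact mul_ne_zero h0 h'

theorem D_sw (hPhi : PhiStmt) (D : MetricData) (k : ℕ) (i : Bool) {q : E4} (h : q ∈ SB)
    (V : E4) : fderiv ℝ (cm D k (!i)) (sw q) (fderiv ℝ sw q V) = fderiv ℝ (cm D k i) q V := by
  have h1 : DifferentiableAt ℝ sw q :=
    (sw_smooth.contDiffAt (SB_open.mem_nhds h)).differentiableAt (by simp)
  have h2 : DifferentiableAt ℝ (cm D k (!i)) (sw q) :=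
    ((hPhi.2.2.2 D k (!i)).1.differentiable (by simp)) _
  have h3 : (fun X => cm D k (!i) (sw X)) =ᶠ[𝓝 q] cm D k i := by
    filter_upwards [SB_open.mem_nhds h] with Y hY
    exact cm_sw D k i hY
  have h4 : fderiv ℝ (fun X => cm D k (!i) (sw X)) q = fderiv ℝ (cm D k i) q := h3.fderiv_eq
  have h5 := fderiv_comp' q h2 h1
  rw [h4] at h5
  have h6 := congrArg (fun L : E4 →L[ℝ] E4 => L V) h5
  simpa using h6.symm

theorem tr2 (hDif : DifStmt) (hPhi : PhiStmt) (hPsi : PsiStmt) (hG1m : G1mStmt) : Tr2Stmt := by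
  intro D j k l i i'
  by_cases hkl : k = l
  · subst hkl
    by_cases hii : i' = i
    · subst hii
      exact TransE_id _ _ _
    · have hi' : i' = !i := by
        cases i <;> cases i' <;> simp_all
      subst hi'
      refine ⟨sw, sw_smooth.mono ?_, ?_⟩
      · rintro q ⟨hq, q', hq', hqq⟩
        exact sb_of_eq D j k i hqq
      · rintro q ⟨hq, q', hq', hqq⟩
        have hSB : q ∈ SB := sb_of_eq D j k i hqq
        refine ⟨sw_U1 hSB hq, psi1_sw D j k i hSB, ?_⟩
        intro V W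
        -- the two sides as functions of `q` on the open set `U1 ∩ SB`
        have hm := (hG1m D j k i).1
        have hm' := (hG1m D j k (!i)).1
        have hO : IsOpen (U1 ∩ SB) := hm.isOpen.inter SB_open
        have hF : ContinuousOn (fun q => G1 D j k i q V W) (U1 ∩ SB) := by
          have h1 : ContinuousOn (G1 D j k i) (U1 ∩ SB) :=
            hm.smooth.continuousOn.mono inter_subset_left
          exact (h1.clm_apply continuousOn_const).clm_apply continuousOn_const
        have hD : ContinuousOn (fderiv ℝ sw) (U1 ∩ SB) := by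
          have h1 : ContinuousOn (fderiv ℝ sw) SB :=
            (sw_smooth.continuousOn_fderiv_of_isOpen SB_open (by simp))
          exact h1.mono inter_subset_right
        have hF' : ContinuousOn (fun q => G1 D j k (!i) (sw q) (fderiv ℝ sw q V)
            (fderiv ℝ sw q W)) (U1 ∩ SB) := by
          have h1 : ContinuousOn (fun q => G1 D j k (!i) (sw q)) (U1 ∩ SB) :=
            hm'.smooth.continuousOn.comp (sw_smooth.continuousOn.mono inter_subset_right)
              fun q hq => sw_U1 hq.2 hq.1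
          exact (h1.clm_apply (hD.clm_apply continuousOn_const)).clm_apply
            (hD.clm_apply continuousOn_const)
        have heq : ∀ q ∈ U1 ∩ SB, (q 0 ≠ 0 ∨ q 1 ≠ 0) → G1 D j k i q V W =
            G1 D j k (!i) (sw q) (fderiv ℝ sw q V) (fderiv ℝ sw q W) := by
          intro q hq h0
          have h0' := ne_iff.2 h0
          rw [G1_of_ne D j k i h0', G1_of_ne D j k (!i) (sw_sub hq.2 h0'), pullb_app,
            pullb_app, D_sw hPhi D k i hq.2 V, D_sw hPhi D k i hq.2 W, cm_sw D k i hq.2]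
        apply le_antisymm
        · exact hDif.2.2 _ _ _ hO hF hF' (fun q hq h0 => (heq q hq h0).le) q ⟨hq, hSB⟩
        · exact hDif.2.2 _ _ _ hO hF' hF (fun q hq h0 => (heq q hq h0).ge) q ⟨hq, hSB⟩
  · -- different centres: the domain is empty
    have hempty : ∀ q q' : E4, q ∈ U1 → q' ∈ U1 → psi1 D j l i' q' = psi1 D j k i q → False := by
      intro q q' hq hq' hqq
      have h1 : cm D l i' q' = cm D k i q := congrArg (fun p : Bl D j => p.1.1) hqq
      have hn : ∀ (k : ℕ) (i : Bool) (q : E4), q ∈ U1 → ‖cm D k i q - D.P k‖ < 8 * D.w k := by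
        intro k i q hq
        have h2 : cm D k i q - D.P k = D.w k • Phi0 i q := by simp [cm]
        rw [h2, norm_smul, Real.norm_of_nonneg (D.w_pos k).le]
        have h3 : ‖Phi0 i q‖ < 8 := by
          have h4 : ‖Phi0 i q‖ ^ 2 < 8 ^ 2 := by
            rw [norm_Phi0]
            have : (q 0 ^ 2 + q 1 ^ 2) * (1 + q 2 ^ 2 + q 3 ^ 2) < 64 := hq
            linarith
          exact lt_of_pow_lt_pow_left₀ 2 (by norm_num) h4
        have := D.w_pos k
        nlinarith
      have h2 := hn k i q hq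
      have h3 := hn l i' q' hq'
      rw [h1] at h3
      have hne : (k : ℕ) ≠ l := fun h => hkl (Fin.ext h)
      have h4 := D.disj k l hne
      have h5 := D.w_le k
      have h6 := D.w_le l
      have h7 : dist (D.P k) (D.P l) ≤ ‖cm D k i q - D.P k‖ + ‖cm D k i q - D.P l‖ := by
        have := dist_triangle (D.P k) (cm D k i q) (D.P l)
        rw [dist_comm (D.P k) (cm D k i q), dist_eq_norm (cm D k i q) (D.P k),
          dist_eq_norm (cm D k i q) (D.P l)] at this
        exact this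
      have := D.w_pos k
      have := D.w_pos l
      linarith
    refine ⟨id, contDiffOn_id, ?_⟩
    rintro q ⟨hq, q', hq', hqq⟩
    exact (hempty q q' hq hq' hqq).elim

end Pool.Agent.RLim.H31
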